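import Pool.Agent.helper32.QS.Spec

set_option autoImplicit false

namespace QS

theorem NII_two_pow (l : List ℕ) (h : ∀ x ∈ l, 2 ≤ x) : 2 ^ l.length ≤ l.prod := by
  induction l with
  | nil => simp
  | cons a t ih =>
    rw [List.length_cons, List.prod_cons, pow_succ, mul_comm]
    exact Nat.mul_le_mul (h a (by simp)) (ih (fun x hx => h x (by simp [hx])))

theorem NII_Om (e : ℕ) (he : 2 ≤ e) : 2 ^ Om e ≤ e := by
  have h := NII_two_pow e.primeFactorsList (fun x hx => (Nat.prime_of_mem_primeFactorsList hx).two_le)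
  rwa [Nat.prod_primeFactorsList (by omega)] at h

theorem NII_g1 (m : ℕ) (hm : 8 ≤ m) : 5 * ((m + 1) * (2 * m + 3) + 8) ≤ 6 * 2 ^ m := by
  induction m, hm using Nat.le_induction with
  | base => norm_num
  | succ k hk ih => rw [pow_succ]; nlinarith

theorem NII_g2 (m : ℕ) (hm : 8 ≤ m) : 4 * ((m + 1) * (2 * m + 3) + 8) ≤ 3 * 2 ^ m := by
  induction m, hm using Nat.le_induction with
  | base => norm_num
  | succ k hk ih => rw [pow_succ]; nlinarith

theorem NII_g3 (m : ℕ) (hm : 10 ≤ m) : 8 * ((m + 1) * (2 * m + 3)) + 40 ≤ 3 * 2 ^ m := by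
  induction m, hm using Nat.le_induction with
  | base => norm_num
  | succ k hk ih => rw [pow_succ]; nlinarith

theorem NII_k1 (K a x : ℕ) (hK : 8 ≤ K) (h : a ≤ 3 * x) : 2 ^ a ≤ K ^ x :=
  calc 2 ^ a ≤ 2 ^ (3 * x) := Nat.pow_le_pow_right (by norm_num) h
    _ = 8 ^ x := by rw [pow_mul]; norm_num
    _ ≤ K ^ x := Nat.pow_le_pow_left hK x

theorem NII_k2 (K a x : ℕ) (hK : 3 ≤ K) (h : 2 * a ≤ 3 * x) : 2 ^ a ≤ K ^ x := by
  have h1 : (2 ^ a) ^ 2 ≤ (K ^ x) ^ 2 :=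
    calc (2 ^ a) ^ 2 = 2 ^ (2 * a) := by rw [← pow_mul, mul_comm]
      _ ≤ 2 ^ (3 * x) := Nat.pow_le_pow_right (by norm_num) h
      _ = 8 ^ x := by rw [pow_mul]; norm_num
      _ ≤ (3 ^ 2) ^ x := Nat.pow_le_pow_left (by norm_num) x
      _ = (3 ^ x) ^ 2 := by rw [← pow_mul, ← pow_mul, mul_comm]
      _ ≤ (K ^ x) ^ 2 := Nat.pow_le_pow_left (Nat.pow_le_pow_left hK x) 2
  exact (Nat.pow_le_pow_iff_left (by norm_num)).1 h1

theorem NII : NII_stmt := by
  intro e n r s d he hen hr hs hcase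
  set K := r ^ s with hKdef
  have hr2 : 2 ≤ r := hr.two_le
  have hsK : s ≤ K := (Nat.lt_pow_self (by omega)).le
  have hK3 : 3 ≤ K := by rcases hcase with h | h | h <;> omega
  obtain ⟨m, hm1, hm2⟩ : ∃ m, 2 ^ m ≤ n ∧ n < 2 ^ (m + 1) :=
    ⟨Nat.log 2 n, Nat.pow_log_le_self 2 (by omega), Nat.lt_pow_succ_log_self (by norm_num) n⟩
  have hOm : Om e ≤ m := by
    have h1 : 2 ^ Om e < 2 ^ (m + 1) := lt_of_le_of_lt ((NII_Om e he).trans hen) hm2
    have := (Nat.pow_lt_pow_iff_right (by norm_num : 1 < 2)).1 h1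
    omega
  have hBd : Bd e ≤ 2 ^ ((m + 1) * (2 * m + 3)) := by
    calc Bd e ≤ e ^ 2 * e ^ (2 * Om e + 1) := Nat.mul_le_mul_right _ (Nat.sub_le _ _)
      _ = e ^ (2 * Om e + 3) := by rw [← pow_add]; congr 1; omega
      _ ≤ e ^ (2 * m + 3) := Nat.pow_le_pow_right (by omega) (by omega)
      _ ≤ (2 ^ (m + 1)) ^ (2 * m + 3) := Nat.pow_le_pow_left (by omega) _
      _ = 2 ^ ((m + 1) * (2 * m + 3)) := by rw [← pow_mul]
  -- the main inequality
  obtain ⟨x, hx, hmain⟩ : ∃ x, x + d + 2 = n ∧ 2 ^ ((m + 1) * (2 * m + 3) + 2) ≤ K ^ x := by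
    refine ⟨n - d - 2, by omega, ?_⟩
    rcases hcase with ⟨hn, hK, hd⟩ | ⟨hn, hK, hd⟩ | ⟨hn, hK, hd⟩
    · have hm8 : 8 ≤ m := by
        by_contra hcon
        have : 2 ^ (m + 1) ≤ 2 ^ 8 := Nat.pow_le_pow_right (by norm_num) (by omega)
        norm_num at this; omega
      have hg := NII_g2 m hm8
      apply NII_k1 K _ _ (by omega)
      omega
    · have hm8 : 10 ≤ m := by
        by_contra hcon
        have : 2 ^ (m + 1) ≤ 2 ^ 10 := Nat.pow_le_pow_right (by norm_num) (by omega)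
        norm_num at this; omega
      have hg := NII_g3 m hm8
      apply NII_k2 K _ _ (by omega)
      omega
    · apply NII_k1 K _ _ hK
      have hm6 : 6 ≤ m := by
        by_contra hcon
        have : 2 ^ (m + 1) ≤ 2 ^ 6 := Nat.pow_le_pow_right (by norm_num) (by omega)
        norm_num at this; omega
      have hfin : 5 * ((m + 1) * (2 * m + 3) + 8) ≤ 6 * n := by
        rcases Nat.lt_or_ge m 8 with h8 | h8
        · have : m = 6 ∨ m = 7 := by omega
          rcases this with rfl | rfl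
          · omega
          · norm_num at hm1; omega
        · have hg := NII_g1 m h8
          omega
      omega
  have hB : s * (K - 1) * Bd e * 4 ≤ K ^ 2 * K ^ x := by
    calc s * (K - 1) * Bd e * 4 = (s * (K - 1)) * (Bd e * 4) := by ring
      _ ≤ (K * K) * (2 ^ ((m + 1) * (2 * m + 3)) * 4) :=
        Nat.mul_le_mul (Nat.mul_le_mul hsK (Nat.sub_le _ _)) (Nat.mul_le_mul_right _ hBd)
      _ = K ^ 2 * 2 ^ ((m + 1) * (2 * m + 3) + 2) := by rw [pow_add]; ring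
      _ ≤ K ^ 2 * K ^ x := Nat.mul_le_mul_left _ hmain
  have hfin : s * (K - 1) * Bd e * K ^ d * 4 ≤ K ^ n := by
    calc s * (K - 1) * Bd e * K ^ d * 4 = (s * (K - 1) * Bd e * 4) * K ^ d := by ring
      _ ≤ (K ^ 2 * K ^ x) * K ^ d := Nat.mul_le_mul_right _ hB
      _ = K ^ n := by rw [← hx]; ring
  have hKd : 1 ≤ K ^ d := Nat.one_le_pow _ _ (by omega)
  have hle : s * (K - 1) * Bd e ≤ s * (K - 1) * Bd e * K ^ d := Nat.le_mul_of_pos_right _ hKd
  have hKn : 3 ≤ K ^ n := le_trans hK3 (Nat.le_self_pow (by omega) K)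
  omega

end QS
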