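import Pool.Agent.helper32.QS.Spec

set_option autoImplicit false

namespace QS

theorem PRB_choose (n : ℕ) (hn : 1 ≤ n) (j : ℕ) (hj : 2 * j = n) :
    n.choose j ≤ 2 ^ (n - 1) := by
  obtain ⟨k, rfl⟩ : ∃ k, j = k + 1 := ⟨j - 1, by omega⟩
  subst hj
  have h1 : (2 * (k + 1)).choose (k + 1) = (2 * k + 1).choose k + (2 * k + 1).choose (k + 1) := by
    rw [show 2 * (k + 1) = (2 * k + 1) + 1 by ring, Nat.choose_succ_succ]
  have h2 := Nat.choose_middle_le_pow k
  have h3 : (2 : ℕ) ^ (2 * (k + 1) - 1) = 4 ^ k * 2 := by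
    rw [show 2 * (k + 1) - 1 = 2 * k + 1 by omega, pow_succ, pow_mul]; norm_num
  rw [h1, Nat.choose_symm_half, h3]
  omega

theorem PRB (hPR2 : PR2_stmt) : PRB_stmt := by
  intro p hp hp5 S Ω _ _ _ _ _ c hc hS
  classical
  have : Fintype Ω := Fintype.ofFinite Ω
  have : Fintype S := Fintype.ofFinite S
  by_contra hcon
  unfold PCon at hcon
  push Not at hcon
  have hn : 1 ≤ Nat.card Ω := Nat.card_pos
  set n := Nat.card Ω with hndef
  have hnF : Fintype.card Ω = n := by rw [hndef, Nat.card_eq_fintype_card]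
  let A : Finset (Finset Ω) := Finset.univ.filter (fun D : Finset Ω => 2 * D.card = n)
  let bad : Finset S :=
    Finset.univ.filter (fun x : S => (∀ ω : Ω, x ^ p • ω = ω) ∧ ∃ ω : Ω, x • ω ≠ ω)
  let F : S → Finset (Finset Ω) :=
    fun x => Finset.univ.filter (fun D : Finset Ω => ∀ ω ∈ D, x • ω ∈ D)
  have hA : A.card ≤ 2 ^ (n - 1) := by
    have h1 : A ⊆ Finset.powersetCard (n / 2) (Finset.univ : Finset Ω) := by
      intro D hD
      rw [Finset.mem_filter] at hD
      rw [Finset.mem_powersetCard]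
      exact ⟨Finset.subset_univ _, by omega⟩
    rcases Finset.eq_empty_or_nonempty A with h0 | ⟨D, hD⟩
    · rw [h0]; simp
    · rw [Finset.mem_filter] at hD
      have h2 := Finset.card_le_card h1
      rw [Finset.card_powersetCard, Finset.card_univ, hnF] at h2
      exact h2.trans (PRB_choose n hn (n / 2) (by omega))
  have hF : ∀ x ∈ bad, (F x).card ≤ 2 ^ c := by
    intro x hx
    rw [Finset.mem_filter] at hx
    have h1 := hPR2 S Ω p hp x hx.2.1
    have h2 : Nat.card {D : Finset Ω // D ∈ F x} ≤ Nat.card {Δ : Set Ω // ∀ ω ∈ Δ, x • ω ∈ Δ} := by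
      apply Nat.card_le_card_of_injective (fun D : {D : Finset Ω // D ∈ F x} =>
        (⟨(D.1 : Set Ω), fun ω hω => by
          have h3 := (Finset.mem_filter.1 D.2).2 ω (Finset.mem_coe.1 hω)
          exact Finset.mem_coe.2 h3⟩ : {Δ : Set Ω // ∀ ω ∈ Δ, x • ω ∈ Δ}))
      intro D E hDE
      have h4 := congrArg Subtype.val hDE
      exact Subtype.ext (Finset.coe_injective h4)
    rw [Nat.card_eq_fintype_card, Fintype.card_coe, h1] at h2
    exact h2.trans (Nat.pow_le_pow_right (by norm_num) (hc x hx.2.1 hx.2.2))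
  have hcov : (Finset.univ : Finset (Finset Ω)) ⊆ A ∪ bad.biUnion F := by
    intro D _
    rw [Finset.mem_union]
    by_cases hD : 2 * D.card = n
    · left
      exact Finset.mem_filter.2 ⟨Finset.mem_univ _, hD⟩
    · right
      obtain ⟨x, hx1, hx2, hx3⟩ := hcon (D : Set Ω) (by rw [Set.ncard_coe_finset]; exact hD)
      rw [Finset.mem_biUnion]
      exact ⟨x, Finset.mem_filter.2 ⟨Finset.mem_univ _, hx1, hx3⟩,
        Finset.mem_filter.2 ⟨Finset.mem_univ _, fun ω hω =>
          Finset.mem_coe.1 (hx2 ω (Finset.mem_coe.2 hω))⟩⟩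
  have h1 := Finset.card_le_card hcov
  rw [Finset.card_univ, Fintype.card_finset, hnF] at h1
  have h2 := Finset.card_union_le A (bad.biUnion F)
  have h3 := Finset.card_biUnion_le_card_mul bad F (2 ^ c) hF
  have h4 : bad.card ≤ Nat.card S := by
    rw [Nat.card_eq_fintype_card]; exact Finset.card_le_univ _
  have h5 : bad.card * 2 ^ c ≤ Nat.card S * 2 ^ c := Nat.mul_le_mul_right _ h4
  have h6 : (2 : ℕ) ^ n = 2 ^ (n - 1) + 2 ^ (n - 1) := by
    rw [← Nat.two_mul, ← pow_succ']; congr 1; omega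
  omega

end QS
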